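import Mathlib

set_option autoImplicit false

namespace Pool.Agent.Results.MP_08c285_gt.Regular

open Set Cardinal

universe u

variable {G : Type u} [Group G]

/-- The entourages of the ballean of subsets of cardinality `< |G|`. -/
def Ent (G : Type u) [Group G] : Set (Set (G × G)) :=
  {E | ∃ A : Set G, #A < #G ∧ 1 ∈ A ∧ A⁻¹ = A ∧ ∀ p ∈ E, ∃ a ∈ A, p.2 = p.1 * a}

/-- `E[S]`. -/
def img (E : Set (G × G)) (S : Set G) : Set G := {y | ∃ x ∈ S, (x, y) ∈ E}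

/-- asymptotically disjoint -/
def AsDisj (P Q : Set G) : Prop := ∀ E ∈ Ent G, #↥(img E P ∩ img E Q) < #G

/-- `U` is an asymptotic neighbourhood of `P` -/
def AsNbhd (U P : Set G) : Prop := ∀ E ∈ Ent G, #↥(img E P \ U) < #G

/-- normality of the ballean -/
def Normal (G : Type u) [Group G] : Prop :=
  ∀ P Q : Set G, AsDisj P Q → ∃ U V : Set G, AsNbhd U P ∧ AsNbhd V Q ∧ AsDisj U V

theorem rec_ex {T Y : Type u} [Nonempty Y] [LinearOrder T] [WellFoundedLT T] (R : T → (T → Y) → Y → Prop)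
    (hR : ∀ t f, ∃ y, R t f y) (hloc : ∀ t f g y, (∀ s < t, f s = g s) → R t f y → R t g y) :
    ∃ p : T → Y, ∀ t, R t p (p t) := by
  classical
  choose F hF using hR
  let p : T → Y := (wellFounded_lt (α := T)).fix
    fun t ih => F t fun s => if h : s < t then ih s h else Classical.arbitrary Y
  refine ⟨p, fun t => ?_⟩
  have : p t = F t fun s => if s < t then p s else Classical.arbitrary Y := by
    simp only [p]; rw [WellFounded.fix_eq]; simp
  rw [this]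
  exact hloc t _ _ _ (fun s hs => if_pos hs) (hF t _)

theorem union_le {ι α : Type u} (f : ι → Set α) {μ : Cardinal} (h : ∀ i, #(f i) ≤ μ) :
    #(⋃ i, f i) ≤ #ι * μ := (mk_iUnion_le f).trans (mul_le_mul' le_rfl (ciSup_le' h))

theorem not_sub {α : Type u} {S T : Set α} (h : #S < #T) : ∃ x ∈ T, x ∉ S := by
  by_contra h'
  push Not at h'
  exact (mk_le_mk_of_subset h').not_gt h

theorem gen (hκ : ℵ₀ < #G) {T : Type u} (hT : #T ≤ #G) (c : T → G) :
    ∃ p : T → G, Function.Injective p ∧ Function.Injective (fun t => p t * c t) ∧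
      ∀ w, {x : T × T | x.1 ≠ x.2 ∧ p x.1 = p x.2 * c x.2 * w}.Finite := by
  obtain ⟨_, _, ho⟩ := exists_ord_eq_type_lt T
  obtain ⟨p, hp⟩ := rec_ex (T := T) (Y := G)
    (fun t f y => y ∉ Subgroup.closure (insert (c t) (f '' Iio t ∪ c '' Iio t))) (fun t f => by
      have h1 : #(Iio t) < #G := (mk_Iio_lt t ho).trans_le hT
      have h2 : #↥(insert (c t) (f '' Iio t ∪ c '' Iio t)) < #G :=
        mk_insert_le.trans_lt (add_lt_of_lt hκ.le ((mk_union_le _ _).trans_lt (add_lt_of_lt hκ.le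
          (mk_image_le.trans_lt h1) (mk_image_le.trans_lt h1))) (one_lt_aleph0.trans hκ))
      obtain ⟨x, -, hx⟩ := not_sub (α := G) (S := ↑(Subgroup.closure (insert (c t) (f '' Iio t ∪ c '' Iio t))))
        (T := Set.univ) (by
          have : Nonempty ↥(insert (c t) (f '' Iio t ∪ c '' Iio t)) := ⟨⟨_, mem_insert _ _⟩⟩
          rw [FreeGroup.closure_eq_range, MonoidHom.coe_range, mk_univ]
          exact mk_range_le.trans_lt (by rw [mk_freeGroup]; exact max_lt h2 hκ))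
      exact ⟨x, hx⟩) (fun t f g y h => by rw [image_congr (s := Iio t) h]; exact id)
  let H : T → Subgroup G := fun t => Subgroup.closure (insert (c t) (p '' Iio t ∪ c '' Iio t))
  have h1 : ∀ s t, s < t → p s ∈ H t := fun s t h => Subgroup.subset_closure (Or.inr (Or.inl ⟨s, h, rfl⟩))
  have h2 : ∀ s t, s ≤ t → c s ∈ H t := fun s t h => Subgroup.subset_closure (by
    rcases h.lt_or_eq with h | rfl
    exacts [Or.inr (Or.inr ⟨s, h, rfl⟩), Or.inl rfl])
  have h3 : Function.Injective p := Function.Injective.of_lt_imp_ne fun s t h e => hp t (e ▸ h1 s t h)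
  have h4 : Function.Injective fun t => p t * c t := Function.Injective.of_lt_imp_ne fun s t h e => hp t (by
    rw [eq_mul_inv_of_mul_eq e.symm]
    exact mul_mem (mul_mem (h1 s t h) (h2 s t h.le)) (inv_mem (h2 t t le_rfl)))
  refine ⟨p, h3, h4, fun w => ?_⟩
  have h5 : ∀ x y : T × T, x.1 ≠ x.2 → p x.1 = p x.2 * c x.2 * w → p y.1 = p y.2 * c y.2 * w →
      max x.1 x.2 ≤ max y.1 y.2 := by
    rintro ⟨s, t⟩ ⟨s', t'⟩ hne e e'
    by_contra h
    rw [not_le, max_lt_iff] at h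
    have hw : w ∈ H (max s t) := by
      rw [eq_inv_mul_of_mul_eq e'.symm]
      exact mul_mem (inv_mem (mul_mem (h1 _ _ h.2) (h2 _ _ h.2.le))) (h1 _ _ h.1)
    rcases lt_or_gt_of_ne hne with h6 | h6
    · rw [max_eq_right h6.le] at hw
      refine hp t ?_
      rw [mul_assoc] at e
      rw [eq_mul_inv_of_mul_eq e.symm]
      exact mul_mem (h1 _ _ h6) (inv_mem (mul_mem (h2 _ _ le_rfl) hw))
    · rw [max_eq_left h6.le] at hw
      refine hp s ?_
      rw [show p s = _ from e]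
      exact mul_mem (mul_mem (h1 _ _ h6) (h2 _ _ h6.le)) hw
  refine Set.Finite.of_finite_image (f := fun x => x.1 < x.2) (toFinite _) ?_
  rintro ⟨s, t⟩ ⟨hne, e⟩ ⟨s', t'⟩ ⟨hne', e'⟩ h
  have h6 := le_antisymm (h5 _ _ hne e e') (h5 _ _ hne' e' e)
  simp only [eq_iff_iff] at h e e' hne hne' h6
  rcases lt_or_gt_of_ne hne with h7 | h7
  · rw [max_eq_right h7.le, max_eq_right (h.1 h7).le] at h6
    subst h6
    rw [h3 (e.trans e'.symm)]
  · rw [max_eq_left h7.le, max_eq_left (not_lt.1 fun h8 => h7.not_gt (h.2 h8))] at h6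
    subst h6
    rw [h4 (mul_right_cancel (e.symm.trans e'))]

theorem ent (hκ : ℵ₀ < #G) {A : Set G} (hA : #A < #G) :
    ∃ E ∈ Ent G, ∀ x, (x, x) ∈ E ∧ ∀ a ∈ A, (x, x * a) ∈ E := by
  refine ⟨{p | ∃ a ∈ insert 1 (A ∪ A⁻¹), p.2 = p.1 * a}, ⟨insert 1 (A ∪ A⁻¹), ?_, mem_insert _ _, ?_,
    fun _ h => h⟩, fun x => ⟨⟨1, mem_insert _ _, by simp⟩, fun a ha => ⟨a, Or.inr (Or.inl ha), rfl⟩⟩⟩
  · refine mk_insert_le.trans_lt (add_lt_of_lt hκ.le ((mk_union_le _ _).trans_lt (add_lt_of_lt hκ.le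
      hA ?_)) (one_lt_aleph0.trans hκ))
    rw [← image_inv_eq_inv]
    exact mk_image_le.trans_lt hA
  · ext x; simp [or_comm]

theorem result (G : Type u) [Group G] [Infinite G] (h : Normal G) : (#G).IsRegular := by
  by_contra hr
  have hs : (#G).IsSingular := ⟨aleph0_le_mk G, fun h => hr ⟨aleph0_le_mk G, h.ge⟩⟩
  have hκ : ℵ₀ < #G := (aleph0_le_mk G).lt_of_ne fun h => hr (h ▸ isRegular_aleph0)
  obtain ⟨r, hr1, -, hr2⟩ := gen hκ (T := G ⊕ G) (by simp) fun _ => 1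
  obtain ⟨p, hp1, hp2, hp3⟩ := gen hκ (T := G × G) (by simp) fun t => (r (.inl t.2))⁻¹ * r (.inr t.1)
  have hd : AsDisj (range p) (range fun t => p t * ((r (.inl t.2))⁻¹ * r (.inr t.1))) := by
    rintro E ⟨A, hA, -, -, hE⟩
    let S : A × A → Set G := fun x => (fun s => p s * x.1) ''
      {s | ∃ t : G × G, p s = p t * ((r (.inl t.2))⁻¹ * r (.inr t.1)) * (x.2 * (x.1 : G)⁻¹)}
    have h1 : ∀ x, #(S x) ≤ ℵ₀ := fun x => by
      refine (Set.Finite.image _ ?_).lt_aleph0.le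
      refine (((hp3 (x.2 * (x.1 : G)⁻¹)).image Prod.fst).union ((hr2 (x.2 * (x.1 : G)⁻¹)).image
        fun y => (y.2.elim id id, y.1.elim id id))).subset ?_
      rintro s ⟨t, e⟩
      by_cases hst : s = t
      · subst hst
        refine Or.inr ⟨(.inl s.2, .inr s.1), ⟨by simp, ?_⟩, rfl⟩
        rw [mul_assoc, mul_assoc, left_eq_mul, inv_mul_eq_one] at e
        simpa using e
      · exact Or.inl ⟨(s, t), ⟨hst, e⟩, rfl⟩
    refine (mk_le_mk_of_subset ?_).trans_lt ((union_le S h1).trans_lt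
      (mul_lt_of_lt hκ.le (by simpa using mul_lt_of_lt hκ.le hA hA) hκ))
    rintro y ⟨⟨_, ⟨s, rfl⟩, h2⟩, _, ⟨t, rfl⟩, h3⟩
    obtain ⟨a, ha, e⟩ := hE _ h2
    obtain ⟨b, hb, e'⟩ := hE _ h3
    refine mem_iUnion.2 ⟨(⟨a, ha⟩, ⟨b, hb⟩), s, ⟨t, ?_⟩, e.symm⟩
    simp only at e e' ⊢
    rw [← mul_assoc, ← e', e]; simp
  obtain ⟨U, V, hU, hV, hUV⟩ := h _ _ hd
  let g : G → G → G := fun k l => p (k, l) * (r (.inl l))⁻¹
  let K : G → Set G := fun k => {l | g k l ∉ V}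
  have h1 : ∀ S : Set G, #S < #G → ∃ ν < #G, ∀ k ∈ S, #(K k) ≤ ν := fun S hS => by
    obtain ⟨E, hE, hE'⟩ := ent hκ (A := (fun k => (r (.inr k))⁻¹) '' S) (mk_image_le.trans_lt hS)
    refine ⟨_, hV E hE, fun k hk => mk_le_of_injective (f := fun l => ⟨g k l, ⟨_, ⟨(k, l), rfl⟩, ?_⟩, l.2⟩) ?_⟩
    · simpa [g, mul_assoc] using (hE' (p (k, l) * ((r (.inl l))⁻¹ * r (.inr k)))).2 _ ⟨k, hk, rfl⟩
    · intro l l' e
      have e1 : g k l = g k l' := congrArg Subtype.val e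
      have e2 := @hp2 (k, l) (k, l') (by simp only [← mul_assoc]; exact congrArg (· * r (.inr k)) e1)
      exact Subtype.ext (congrArg Prod.snd e2)
  obtain ⟨μ, hμ, hK⟩ : ∃ μ < #G, ∀ k, #(K k) ≤ μ := by
    by_contra hn
    push Not at hn
    obtain ⟨s, hs1, hs2⟩ := Order.exists_cof_eq (#G).ord.ToType
    have h2 : #s < #G := by rw [hs2, Ordinal.cof_toType]; exact hs.cof_ord_lt
    choose k hk using fun i : s => hn (#(Iic i.1)) (by
      rw [← Iio_insert]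
      exact mk_insert_le.trans_lt (add_lt_of_lt hκ.le (mk_Iio_toType_ord_lt _) (one_lt_aleph0.trans hκ)))
    obtain ⟨ν, hν, h3⟩ := h1 (range k) (mk_range_le.trans_lt h2)
    have h4 := union_le (fun i : s => Iic i.1) fun i => (hk i).le.trans (h3 _ ⟨i, rfl⟩)
    rw [show (⋃ i : s, Iic i.1) = Set.univ from eq_univ_of_forall fun x =>
      let ⟨y, hy, hxy⟩ := hs1 x; mem_iUnion.2 ⟨⟨y, hy⟩, hxy⟩, mk_univ, mk_ord_toType] at h4
    exact h4.not_gt (mul_lt_of_lt hκ.le h2 hν)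
  have h2 : Order.succ μ < #G := hs.isSuccLimit.succ_lt hμ
  obtain ⟨L, hL⟩ := le_mk_iff_exists_set.1 h2.le
  obtain ⟨E, hE, hE'⟩ := ent hκ (A := (fun l => (r (.inl l))⁻¹) '' L) (mk_image_le.trans_lt (hL ▸ h2))
  let Z : Set G := (img E (range p) \ U) ∪ (img E U ∩ img E V)
  have hZ : #Z < #G := (mk_union_le _ _).trans_lt (add_lt_of_lt hκ.le (hU E hE) (hUV E hE))
  obtain ⟨k, -, hk⟩ := not_sub (S := ⋃ x : L × Z, {k | g k x.1 = x.2}) (T := Set.univ) (by
    rw [mk_univ]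
    refine (union_le _ (μ := 1) fun x => ?_).trans_lt (by simpa using mul_lt_of_lt hκ.le (hL ▸ h2) hZ)
    rw [mk_le_one_iff_set_subsingleton]
    intro k hk k' hk'
    exact congrArg Prod.fst (hp1 (mul_right_cancel (hk.trans hk'.symm))))
  obtain ⟨l, hl, hl'⟩ := not_sub (S := K k) (T := L) (hL ▸ Order.lt_succ_of_le (hK k))
  refine hk (mem_iUnion.2 ⟨(⟨l, hl⟩, ⟨g k l, ?_⟩), rfl⟩)
  by_cases h3 : g k l ∈ U
  · exact Or.inr ⟨⟨_, h3, (hE' _).1⟩, _, not_not.1 hl', (hE' _).1⟩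
  · exact Or.inl ⟨⟨_, ⟨(k, l), rfl⟩, (hE' _).2 _ ⟨l, hl, rfl⟩⟩, h3⟩

end Pool.Agent.Results.MP_08c285_gt.Regular
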